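import Mathlib
import Pool.Agent.V11320.EdenNorm

set_option autoImplicit false
open MeasureTheory
open scoped ENNReal NNReal BigOperators Topology

namespace Pool.Agent.Results.MP_41ff67_pr.RhombusNotLimitShape

open Pool.Agent.V11320.EdenShape

variable {d : ℕ}

theorem S1_sub_le (x y : E (d + 2)) : |S1 x - S1 y| ≤ S1 (x - y) := by
  unfold S1
  rw [← Finset.sum_sub_distrib]
  refine (Finset.abs_sum_le_sum_abs _ _).trans (Finset.sum_le_sum fun i _ => ?_)
  rw [PiLp.sub_apply]
  exact abs_abs_sub_abs_le _ _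

theorem N_sub_le (x y : E (d + 2)) : |N x - N y| ≤ N (x - y) := by
  unfold N
  have h1 := S1_sub_le x y
  have h2 : |(|x 0| - |y 0|)| ≤ |(x - y) 0| := by
    rw [PiLp.sub_apply]
    exact abs_abs_sub_abs_le _ _
  rw [abs_le] at h1 h2
  rw [abs_le]
  constructor <;> linarith [h1.1, h1.2, h2.1, h2.2]

theorem N_le_norm (x : E (d + 2)) : N x ≤ (2 * d + 3) * ‖x‖ := by
  unfold N
  have h1 := coord_le x 0
  have h2 := S1_le x
  nlinarith

theorem N_lip : LipschitzWith (2 * d + 3 : ℕ) (N : E (d + 2) → ℝ) := by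
  refine LipschitzWith.of_dist_le_mul fun x y => ?_
  rw [Real.dist_eq, dist_eq_norm]
  refine (N_sub_le x y).trans ((N_le_norm _).trans (le_of_eq ?_))
  push_cast
  rfl

theorem N_cont : Continuous (N : E (d + 2) → ℝ) := N_lip.continuous

/-- the set `K` -/
def K (d : ℕ) : Set (E (d + 2)) := {x | N x ≤ 1}

theorem K_compact : IsCompact (K d) := by
  refine Metric.isCompact_of_isClosed_isBounded (isClosed_le N_cont continuous_const) ?_
  refine Metric.isBounded_closedBall.subset (s := K d) (t := Metric.closedBall 0 1) ?_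
  intro x hx
  rw [mem_closedBall_zero_iff]
  have h1 := norm_le x
  have h2 : N x ≤ 1 := hx
  have h3 := S1_nonneg x
  unfold N at h2
  linarith

theorem K_nhds : K d ∈ 𝓝 (0 : E (d + 2)) := by
  have h1 : N (0 : E (d + 2)) = 0 := by
    unfold N S1; simp
  have h2 : ∀ᶠ x in 𝓝 (0 : E (d + 2)), N x < 1 :=
    N_cont.continuousAt.eventually_lt_const (by rw [h1]; exact one_pos)
  filter_upwards [h2] with x hx
  exact hx.le

theorem mem_frontier (x : E (d + 2)) : x ∈ frontier (K d) ↔ N x = 1 := by
  constructor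
  · intro h
    exact frontier_le_subset_eq N_cont continuous_const h
  · intro h
    have hxK : x ∈ K d := h.le
    refine ⟨subset_closure hxK, fun hint => ?_⟩
    have h1 : ContinuousAt (fun t : ℝ => t • x) 1 := by fun_prop
    have h2 : ∀ᶠ t in 𝓝 (1 : ℝ), t • x ∈ interior (K d) := by
      refine h1.eventually_mem (isOpen_interior.mem_nhds ?_)
      simpa using hint
    obtain ⟨ε, hε, h3⟩ := Metric.eventually_nhds_iff.mp h2
    have h4 := @h3 (1 + ε / 2) (by
      rw [Real.dist_eq, add_sub_cancel_left, abs_of_pos (by positivity)]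
      linarith)
    have h6 : (1 + ε / 2) • x ∈ K d := interior_subset h4
    have h5 : N ((1 + ε / 2) • x) ≤ 1 := h6
    rw [N_smul, h, abs_of_pos (by positivity)] at h5
    linarith

theorem K_star (v : E (d + 2)) (hv : v ≠ 0) : ∃! t : ℝ, 0 < t ∧ t • v ∈ frontier (K d) := by
  have hN := N_pos hv
  refine ⟨(N v)⁻¹, ⟨inv_pos.mpr hN, ?_⟩, ?_⟩
  · rw [mem_frontier, N_smul, abs_of_pos (inv_pos.mpr hN), inv_mul_cancel₀ hN.ne']
  · rintro t ⟨ht, hf⟩
    rw [mem_frontier, N_smul, abs_of_pos ht] at hf
    exact eq_inv_of_mul_eq_one_left hf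

/-- the coefficient of a coordinate -/
noncomputable def cf (i : Fin (d + 2)) : ℝ := if i = 0 then 1 else 2

theorem cf_ge (i : Fin (d + 2)) : 1 ≤ cf i := by
  unfold cf; split_ifs <;> norm_num

theorem N_split (x : E (d + 2)) (i : Fin (d + 2)) :
    N x = cf i * |x i| + N (x - x i • EuclideanSpace.single i (1 : ℝ)) := by
  have hy : ∀ j, (x - x i • EuclideanSpace.single i (1 : ℝ)) j = if j = i then 0 else x j := by
    intro j
    by_cases h : j = i
    · subst h
      simp
    · simp [h]
  unfold N S1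
  simp_rw [hy]
  rcases Fin.eq_zero_or_eq_succ i with rfl | ⟨k, rfl⟩
  · simp [cf, Fin.succ_ne_zero]
  · have h1 : ∑ j : Fin (d + 1), |(if j.succ = k.succ then (0 : ℝ) else x j.succ)|
        = ∑ j : Fin (d + 1), |x j.succ| - |x k.succ| := by
      have h2 : ∀ j : Fin (d + 1), |(if j.succ = k.succ then (0 : ℝ) else x j.succ)|
          = |x j.succ| - if j = k then |x k.succ| else 0 := by
        intro j
        by_cases h : j = k
        · subst h; simp
        · simp [h]
      simp_rw [h2]
      rw [Finset.sum_sub_distrib]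
      simp
    rw [h1, if_neg (Fin.succ_ne_zero k).symm]
    unfold cf
    rw [if_neg (Fin.succ_ne_zero k)]
    ring

theorem K_lipschitz : HasLipschitzBoundary (K d) := by
  intro p hp
  rw [mem_frontier] at hp
  -- a nonzero coordinate
  obtain ⟨i, hi⟩ : ∃ i, p i ≠ 0 := by
    by_contra hcon
    push Not at hcon
    have : p = 0 := by
      ext j
      exact hcon j
    rw [this] at hp
    have h0 : N (0 : E (d + 2)) = 0 := by
      unfold N S1; simp
    rw [h0] at hp
    exact zero_ne_one hp
  set σ : ℝ := if 0 < p i then 1 else -1 with hσ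
  have hσ2 : σ * σ = 1 := by
    rw [hσ]; split_ifs <;> norm_num
  have hσabs : |σ| = 1 := by
    rw [hσ]; split_ifs <;> simp
  have hσp : 0 < σ * p i := by
    rw [hσ]
    split_ifs with h
    · linarith
    · have : p i < 0 := lt_of_le_of_ne (not_lt.mp h) hi
      linarith
  have hc := cf_ge i
  refine ⟨σ • EuclideanSpace.single i (1 : ℝ), ?_, (2 * d + 3 : ℕ),
    fun y => (1 - N y) / cf i, ?_, {x | 0 < σ * x i}, ?_, ?_⟩
  · rw [norm_smul, Real.norm_eq_abs, hσabs]
    simp
  · refine LipschitzWith.of_dist_le_mul fun x y => ?_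
    rw [Real.dist_eq, dist_eq_norm]
    have h1 : (1 - N x) / cf i - (1 - N y) / cf i = (N y - N x) / cf i := by ring
    rw [h1, abs_div, abs_of_pos (by linarith : 0 < cf i)]
    have h2 : |N y - N x| / cf i ≤ |N y - N x| := div_le_self (abs_nonneg _) hc
    refine h2.trans ?_
    rw [abs_sub_comm]
    refine (N_sub_le x y).trans ((N_le_norm _).trans (le_of_eq ?_))
    push_cast
    rfl
  · have hcont : Continuous fun x : E (d + 2) => σ * x i := by fun_prop
    exact (isOpen_lt continuous_const hcont).mem_nhds hσp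
  · intro x hx
    have hx' : 0 < σ * x i := hx
    have hinner : (inner ℝ (σ • EuclideanSpace.single i (1 : ℝ)) x : ℝ) = σ * x i := by
      rw [inner_smul_left, EuclideanSpace.inner_single_left]
      simp
    rw [hinner, smul_smul]
    have h1 : σ * x i * σ = x i := by
      calc σ * x i * σ = σ * σ * x i := by ring
        _ = x i := by rw [hσ2, one_mul]
    rw [h1]
    have h2 : |x i| = σ * x i := by
      have h3 : |σ * x i| = |x i| := by rw [abs_mul, hσabs, one_mul]
      rw [← h3, abs_of_pos hx']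
    have h4 := N_split x i
    rw [h2] at h4
    have h5 : x ∈ K d ↔ N x ≤ 1 := Iff.rfl
    rw [h5, le_div_iff₀ (by linarith : 0 < cf i)]
    constructor <;> intro h6 <;> linarith

/-- In every dimension at least two there is a compact set with Lipschitz boundary that contains a
neighbourhood of the origin, whose boundary meets every ray from the origin exactly once, and that
is not the unit ball `B` of any weighted Eden model with `α < 1`. -/
theorem result (d : ℕ) :
    ∃ K : Set (E (d + 2)), IsCompact K ∧ HasLipschitzBoundary K ∧ K ∈ 𝓝 0 ∧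
      (∀ v : E (d + 2), v ≠ 0 → ∃! t : ℝ, 0 < t ∧ t • v ∈ frontier K) ∧
      ∀ μ : Seminorm ℝ (E (d + 2)), IsEdenNorm μ → ∀ α : ℝ, α < 1 →
        ∀ f : E (d + 2) → ℝ, IsWeight α f → K ≠ Ball μ f := by
  refine ⟨K d, K_compact, K_lipschitz, K_nhds, K_star, fun μ hμ α hα f hf hKB => ?_⟩
  refine no_weight (eden_swap hμ) (eden_proj hμ) hα hf fun x => ?_
  have h1 : x ∈ K d ↔ x ∈ Ball μ f := by rw [hKB]
  exact h1

end Pool.Agent.Results.MP_41ff67_pr.RhombusNotLimitShape
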